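import Pool.Agent.Helper97.Ku.GoalsC

/-! Listing small families in length `ω₁`; making a relation a function. -/

namespace Pool.Agent.Helper97.Ku.PkLL

open Set

theorem mem_bo {P : Prop} {p : Cond} : p ∈ (bo P : BA) ↔ P := by
  unfold bo
  rw [RO.mem_iSup]
  constructor
  · intro h
    obtain ⟨r, _, hP, _⟩ := h p le_rfl
    exact hP
  · intro hP q _
    exact ⟨q, le_rfl, hP, RO.mem_top q⟩

theorem not_countable_Om : ¬ Countable Om := by
  intro h
  have h1 : Cardinal.mk (Set.Iio (Ordinal.omega 1 : Ordinal.{0})) ≤ Cardinal.aleph0 :=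
    Cardinal.mk_le_aleph0_iff.mpr h
  rw [Cardinal.mk_Iio_ordinal, Ordinal.card_omega] at h1
  rw [Cardinal.lift_le_aleph0] at h1
  have h2 : Cardinal.aleph0 < Cardinal.aleph 1 := by
    rw [← Cardinal.aleph_zero]
    exact Cardinal.aleph_lt_aleph.mpr zero_lt_one
  exact absurd h1 (not_le.mpr h2)

theorem exists_free (ξ : Kap) (q : Cond) : ∃ ν : Om, q.v (.col ξ ν) = none := by
  by_contra hcon
  push Not at hcon
  apply not_countable_Om
  have h1 : q.supp.Countable := q.supp_countable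
  have h2 : Function.Injective (fun ν : Om => (⟨.col ξ ν, hcon ν⟩ : q.supp)) := by
    intro a b hab
    simp only [Subtype.mk.injEq, Coord.col.injEq, true_and] at hab
    exact hab
  have : Countable q.supp := h1.to_subtype
  exact h2.countable

theorem val_of_le {q r : Cond} {ξ η : Kap} {ν : Om} (h : q.v (.col ξ ν) = some (.od η))
    (hr : r ≤ q) : r.v (.col ξ ν) = some (.od η) := by
  obtain ⟨y, hy, hy'⟩ := hr.2.2 _ _ h
  cases y with
  | nd s => exact absurd hy' (by simp [Val.res])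
  | od η' =>
    simp only [Val.res, Val.od.injEq] at hy'
    rw [hy, hy']

theorem mem_colN {q : Cond} {ξ η : Kap} {ν : Om} (h : q.v (.col ξ ν) = some (.od η)) :
    q ∈ colN ξ ν η := by
  unfold colN
  rw [RO.mem_cl]
  intro r hr
  exact ⟨r, le_rfl, val_of_le h hr⟩

theorem eq_of_mem_colN {q : Cond} {ξ η η' : Kap} {ν : Om} (h : q.v (.col ξ ν) = some (.od η))
    {r : Cond} (hr : r ≤ q) (h' : r ∈ colN ξ ν η') : η' = η := by
  unfold colN at h'
  rw [RO.mem_cl] at h'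
  obtain ⟨s, hs, hs'⟩ := h' r le_rfl
  have h1 := val_of_le h (hs.trans hr)
  simp only [mem_ofPred_eq] at hs'
  rw [h1] at hs'
  simp only [Option.some.injEq, Val.od.injEq] at hs'
  exact hs'.symm

theorem ll : G_LL := by
  intro J K a hJ hne
  obtain ⟨ξ, φ, hφ⟩ : ∃ (ξ : Kap) (φ : Set.Iio ξ → J), Function.Surjective φ := by
    refine ⟨Ordinal.type (WellOrderingRel (α := Shrink.{0} J)),
      fun η => (equivShrink J).symm (Ordinal.enum (WellOrderingRel (α := Shrink.{0} J)) η), ?_⟩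
    exact (equivShrink J).symm.surjective.comp
      (Ordinal.enum (WellOrderingRel (α := Shrink.{0} J))).surjective
  refine ⟨fun ν k => ⨆ η : Set.Iio ξ, (colN ξ ν η.1 ⊓ a (φ η) k), fun j p => ?_⟩
  rw [RO.mem_iSup]
  intro q _
  obtain ⟨η, rfl⟩ := hφ j
  obtain ⟨ν, hν⟩ := exists_free ξ q
  have hok : Ok q.S (.col ξ ν) (.od η.1) := η.2
  refine ⟨upd q (.col ξ ν) (.od η.1) hok, upd_le q _ hok hν, ν, ?_⟩
  have hv : (upd q (.col ξ ν) (.od η.1) hok).v (.col ξ ν) = some (.od η.1) :=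
    upd_v_self q _ _ hok
  rw [RO.mem_iInf]
  intro k
  unfold eqB
  rw [RO.mem_inf, RO.mem_himp, RO.mem_himp]
  constructor
  · intro r hr hr'
    refine RO.dense fun s hs => ?_
    rw [RO.mem_iSup] at hr'
    obtain ⟨t, ht, η', ht'⟩ := hr' s hs
    rw [RO.mem_inf] at ht'
    have h1 := eq_of_mem_colN hv (ht.trans (hs.trans hr)) ht'.1
    have h2 : η' = η := Subtype.ext h1
    rw [h2] at ht'
    exact ⟨t, ht, ht'.2⟩
  · intro r hr hr'
    rw [RO.mem_iSup]
    intro s hs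
    exact ⟨s, le_rfl, η, RO.mem_inf.mpr ⟨RO.lower (hs.trans hr) (mem_colN hv), RO.lower hs hr'⟩⟩

/-- The values of the function. -/
noncomputable def fv (Y : Om → Om → BA) (c0 : Om) (i j : Om) : BA :=
  (Y i j ⊓ ⨅ k, ⨅ _ : k < j, (Y i k)ᶜ) ⊔ (bo (j = c0) ⊓ (⨆ k, Y i k)ᶜ)

theorem mem_fst {Y : Om → Om → BA} {i j : Om} {p : Cond} :
    p ∈ (Y i j ⊓ ⨅ k, ⨅ _ : k < j, (Y i k)ᶜ) ↔ p ∈ Y i j ∧ ∀ k, k < j → p ∈ (Y i k)ᶜ := by
  rw [RO.mem_inf, RO.mem_iInf]
  refine and_congr_right fun _ => forall_congr' fun k => ?_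
  rw [RO.mem_iInf]

theorem mem_snd {Y : Om → Om → BA} {c0 i j : Om} {p : Cond} :
    p ∈ (bo (j = c0) ⊓ (⨆ k, Y i k)ᶜ : BA) ↔ j = c0 ∧ p ∈ (⨆ k, Y i k)ᶜ := by
  rw [RO.mem_inf, mem_bo]

theorem mem_sup_of {ι : Type*} {a : ι → BA} {p : Cond} (i : ι) (h : p ∈ a i) : p ∈ ⨆ i, a i := by
  rw [RO.mem_iSup]
  intro q hq
  exact ⟨q, le_rfl, i, RO.lower hq h⟩

theorem fnof : G_FNOF := by
  intro Y
  have hpos : (0 : Ordinal.{0}) < Ordinal.omega 1 := Ordinal.omega_pos 1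
  set c0 : Om := ⟨0, hpos⟩ with hc0
  refine ⟨⟨fv Y c0, ?_, ?_⟩, ?_⟩
  · intro i
    rw [eq_top_iff]
    intro p _
    rw [RO.mem_iSup]
    intro q _
    obtain ⟨r, hr, hr'⟩ := RO.mem_or_compl (a := ⨆ k, Y i k) q
    rcases hr' with hr' | hr'
    · rw [RO.mem_iSup] at hr'
      obtain ⟨s, hs, j, hj⟩ := hr' r le_rfl
      have hex : {j : Om | ∃ s, s ≤ r ∧ s ∈ Y i j}.Nonempty := ⟨j, s, hs, hj⟩
      obtain ⟨s', hs', hj'⟩ := WellFounded.min_mem (wellFounded_lt (α := Om)) _ hex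
      set j' := WellFounded.min (wellFounded_lt (α := Om)) _ hex with hjdef
      refine ⟨s', hs'.trans hr, j', ?_⟩
      unfold fv
      rw [RO.mem_sup]
      intro t ht
      refine ⟨t, le_rfl, Or.inl ?_⟩
      rw [mem_fst]
      refine ⟨RO.lower ht hj', fun k hk => ?_⟩
      rw [RO.mem_compl]
      intro w hw hw'
      exact WellFounded.not_lt_min (wellFounded_lt (α := Om)) _
        (show k ∈ {j : Om | ∃ s, s ≤ r ∧ s ∈ Y i j} from ⟨w, hw.trans (ht.trans hs'), hw'⟩) hk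
    · refine ⟨r, hr, c0, ?_⟩
      unfold fv
      rw [RO.mem_sup]
      intro t ht
      exact ⟨t, le_rfl, Or.inr (mem_snd.mpr ⟨rfl, RO.lower ht hr'⟩)⟩
  · intro i j k hjk
    rw [eq_bot_iff]
    intro p hp
    exfalso
    rw [RO.mem_inf] at hp
    obtain ⟨h1, h2⟩ := hp
    unfold fv at h1 h2
    rw [RO.mem_sup] at h1 h2
    obtain ⟨r, hr, hr'⟩ := h1 p le_rfl
    obtain ⟨s, hs, hs'⟩ := h2 r hr
    rw [mem_fst, mem_snd] at hr' hs'
    rcases hr' with ⟨hr1, hr2⟩ | ⟨hr1, hr2⟩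
    · rcases hs' with ⟨hs1, hs2⟩ | ⟨hs1, hs2⟩
      · rcases lt_trichotomy j k with h | h | h
        · exact RO.not_mem_compl (RO.lower hs hr1) (hs2 j h)
        · exact hjk h
        · exact RO.not_mem_compl hs1 (RO.lower hs (hr2 k h))
      · exact RO.not_mem_compl (mem_sup_of j (RO.lower hs hr1)) hs2
    · rcases hs' with ⟨hs1, hs2⟩ | ⟨hs1, hs2⟩
      · exact RO.not_mem_compl (mem_sup_of k hs1) (RO.lower hs hr2)
      · exact hjk (hr1.trans hs1.symm)
  · intro i p hex hdis j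
    show p ∈ eqB (Y i j) (fv Y c0 i j)
    unfold eqB
    rw [RO.mem_inf, RO.mem_himp, RO.mem_himp]
    constructor
    · intro r hr hr'
      unfold fv
      rw [RO.mem_sup]
      intro t ht
      refine ⟨t, le_rfl, Or.inl ?_⟩
      rw [mem_fst]
      refine ⟨RO.lower ht hr', fun k hk => ?_⟩
      rw [RO.mem_compl]
      intro w hw hw'
      have h3 := hdis j k hk.ne'
      exact RO.not_mem_compl (a := Y i j ⊓ Y i k)
        (RO.mem_inf.mpr ⟨RO.lower (hw.trans ht) hr', hw'⟩) (RO.lower (hw.trans (ht.trans hr)) h3)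
    · intro r hr hr'
      refine RO.dense fun t ht => ?_
      unfold fv at hr'
      rw [RO.mem_sup] at hr'
      obtain ⟨s, hs, hs'⟩ := hr' t ht
      rw [mem_fst, mem_snd] at hs'
      rcases hs' with ⟨hs1, _⟩ | ⟨_, hs2⟩
      · exact ⟨s, hs, hs1⟩
      · exact absurd hs2 (fun h => RO.not_mem_compl (RO.lower (hs.trans (ht.trans hr)) hex) h)

end Pool.Agent.Helper97.Ku.PkLL
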