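import Pool.Agent.Helper97.Ku.GoalsG

set_option autoImplicit false

/-!
# Packet S12 of MP_47bc22_lc: from formulas to `Σ¹₂`
-/

namespace Pool.Agent.Helper97.Ku.PkS12

universe u w

section

variable {Ω : Type u} [LinearOrder Ω] {L : Type w} [CompleteBooleanAlgebra L]

omit [LinearOrder Ω] in
theorem eqAt_self (x : FN Ω L) (i : Ω) : x.eqAt x i = ⊤ := by
  unfold FN.eqAt
  simp only [inf_idem]
  exact x.tot i

theorem eqv_self (α : Ω) (x : FN Ω L) : FN.eqv α x x = ⊤ := by
  unfold FN.eqv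
  simp [eqAt_self]

theorem eqv_anti {α α' : Ω} (h : α ≤ α') (x y : FN Ω L) : FN.eqv α' x y ≤ FN.eqv α x y := by
  unfold FN.eqv
  refine le_iInf fun i => le_iInf fun hi => ?_
  exact iInf_le_of_le i (iInf_le_of_le (lt_of_lt_of_le hi h) le_rfl)

theorem eqv_dec (G : Grd Ω) {α α' i : Ω} (h : ∀ j, j < α → G.pi (i, j) < α') (x y : FN Ω L) :
    FN.eqv α' x y ≤ FN.eqv α (dec G i x) (dec G i y) := by
  unfold FN.eqv
  refine le_iInf fun j => le_iInf fun hj => ?_
  exact iInf_le_of_le (G.pi (i, j)) (iInf_le_of_le (h j hj) le_rfl)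

theorem dec_cod (G : Grd Ω) (H : Ω → FN Ω L) (i : Ω) : dec G i (cod G H) = H i := by
  unfold dec cod
  simp

/-- `L`-valued sets of the form `∃ g, ∀ h, open`. -/
def Sg (A : (ℕ → FN Ω L) → L) : Prop :=
  ∃ B : FN Ω L → FN Ω L → (ℕ → FN Ω L) → L,
    (∀ g h e, B g h e ≤ ⨆ α, ⨅ g', ⨅ h', ⨅ e' : ℕ → FN Ω L,
      ((FN.eqv α g g' ⊓ FN.eqv α h h' ⊓ ⨅ k, FN.eqv α (e k) (e' k)) ⇨ B g' h' e')) ∧
    ∀ e, A e = ⨆ g, ⨅ h, B g h e

theorem Sg.of_pi {A : (ℕ → FN Ω L) → L} (hA : Pi11 A) : Sg A := by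
  obtain ⟨B, hB, hAB⟩ := hA
  refine ⟨fun _ h e => B h e, ?_, ?_⟩
  · intro g h e
    refine (hB h e).trans (iSup_mono fun α => ?_)
    refine le_iInf fun g' => le_iInf fun h' => le_iInf fun e' => ?_
    refine iInf_le_of_le h' (iInf_le_of_le e' ?_)
    apply himp_le_himp_right
    exact inf_le_inf_right _ inf_le_right
  · intro e
    have : Nonempty (FN Ω L) := ⟨e 0⟩
    rw [hAB e, iSup_const]

theorem Sg.ex (G : Grd Ω) {A : (ℕ → FN Ω L) → L} (hA : Sg A) (k : ℕ) :
    Sg (fun e => ⨆ x, A (Function.update e k x)) := by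
  obtain ⟨B, hB, hAB⟩ := hA
  have h01 : G.c0 < G.c1 := (G.lt_c1 G.c0).2 rfl
  refine ⟨fun g h e => B (dec G G.c0 g) h (Function.update e k (dec G G.c1 g)), ?_, ?_⟩
  · intro g h e
    refine (hB _ h _).trans (iSup_le fun α => ?_)
    obtain ⟨α1, h1⟩ := G.bd G.c0 α
    obtain ⟨α2, h2⟩ := G.bd G.c1 α
    refine le_iSup_of_le (max α (max α1 α2)) ?_
    refine le_iInf fun g' => le_iInf fun h' => le_iInf fun e' => ?_
    refine iInf_le_of_le (dec G G.c0 g') (iInf_le_of_le h'
      (iInf_le_of_le (Function.update e' k (dec G G.c1 g')) ?_))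
    apply himp_le_himp_right
    have hg0 : FN.eqv (max α (max α1 α2)) g g' ≤ FN.eqv α (dec G G.c0 g) (dec G G.c0 g') :=
      eqv_dec G (fun j hj => lt_of_lt_of_le (h1 j hj)
        (le_trans (le_max_left _ _) (le_max_right _ _))) g g'
    have hg1 : FN.eqv (max α (max α1 α2)) g g' ≤ FN.eqv α (dec G G.c1 g) (dec G G.c1 g') :=
      eqv_dec G (fun j hj => lt_of_lt_of_le (h2 j hj)
        (le_trans (le_max_right _ _) (le_max_right _ _))) g g'
    refine le_inf (le_inf ?_ ?_) ?_
    · exact (inf_le_left.trans inf_le_left).trans hg0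
    · exact (inf_le_left.trans inf_le_right).trans (eqv_anti (le_max_left _ _) _ _)
    · refine le_iInf fun m => ?_
      by_cases hm : m = k
      · subst hm
        rw [Function.update_self, Function.update_self]
        exact (inf_le_left.trans inf_le_left).trans hg1
      · rw [Function.update_of_ne hm, Function.update_of_ne hm]
        exact inf_le_right.trans ((iInf_le _ m).trans (eqv_anti (le_max_left _ _) _ _))
  · intro e
    apply le_antisymm
    · refine iSup_le fun x => ?_
      rw [hAB]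
      refine iSup_le fun g => ?_
      refine le_iSup_of_le (cod G (fun i => if i = G.c0 then g else x)) ?_
      simp only [dec_cod]
      rw [if_pos trivial, if_neg h01.ne']
    · refine iSup_le fun g => ?_
      refine le_iSup_of_le (dec G G.c1 g) ?_
      rw [hAB]
      exact le_iSup_of_le (dec G G.c0 g) le_rfl

theorem Sg.sigma {A : (ℕ → FN Ω L) → L} (hA : Sg A) (e : ℕ → FN Ω L) :
    Sigma12 (fun x => A (Function.update e 0 x)) := by
  obtain ⟨B, hB, hAB⟩ := hA
  refine ⟨fun x g h => B g h (Function.update e 0 x), ?_, fun x => hAB _⟩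
  intro x g h
  refine (hB g h _).trans (iSup_mono fun α => ?_)
  refine le_iInf fun x' => le_iInf fun g' => le_iInf fun h' => ?_
  refine iInf_le_of_le g' (iInf_le_of_le h' (iInf_le_of_le (Function.update e 0 x') ?_))
  apply himp_le_himp_right
  refine le_inf (le_inf ?_ ?_) ?_
  · exact inf_le_left.trans inf_le_right
  · exact inf_le_right
  · refine le_iInf fun m => ?_
    by_cases hm : m = 0
    · subst hm
      rw [Function.update_self, Function.update_self]
      exact inf_le_left.trans inf_le_left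
    · rw [Function.update_of_ne hm, Function.update_of_ne hm, eqv_self]
      exact le_top

theorem exF_val (G : Grd Ω) (f : ℕ) (a : SO) (i : ℕ → Ω) (e : ℕ → FN Ω L) :
    (SO.exF f a).val (M0 G L) i e = ⨆ x, a.val (M0 G L) i (Function.update e f x) := by
  simp [SO.exF, SO.val, compl_iInf]

end

theorem s12 : G_CLS.{u} → G_S12.{u} := by
  intro hC Ω _ L _ G l φ hφ i e
  refine Sg.sigma (A := fun e => (SO.exs l φ).val (M0 G L) i e) ?_ e
  induction l with
  | nil => exact Sg.of_pi ((hC Ω L G φ i).1 hφ)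
  | cons f l ih =>
    have h1 : (fun e => (SO.exs (f :: l) φ).val (M0 G L) i e) =
        fun e => ⨆ x, (SO.exs l φ).val (M0 G L) i (Function.update e f x) := by
      funext e
      exact exF_val G f (SO.exs l φ) i e
    rw [h1]
    exact Sg.ex G ih f

end Pool.Agent.Helper97.Ku.PkS12
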